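import Mathlib
import Pool.Agent.R497.Geh3

/-!
Self-improvement of the reverse Hölder inequality with the gain `ε = c_{d,p} [w]_{RH_p}^{-p}`.

Method: stopping cubes for the mean values of `w` (not of `w^p`), the resulting inequality
`∫_{Q ∩ {w > l}} w^p ≤ 2 * 2^(dp) [w]^p l^(p-1) ∫_{Q ∩ {2 w > l}} w` for `l ≥ ⟨w⟩_Q`, summation over
dyadic levels and absorption for truncated powers (`Pool/Agent/R497/Geh1`-`Geh3`).
-/

set_option autoImplicit false

namespace Pool.Agent.Results.MP_edcda5_an.ExplicitGehringExponent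

open MeasureTheory Set Filter Topology ENNReal
open Pool.Agent.R497.Geh

/-- the axis-parallel cube with lower corner `a` and side length `s` -/
def cube {d : ℕ} (a : Fin d → ℝ) (s : ℝ) : Set (Fin d → ℝ) := Icc a (fun i => a i + s)

/-- the mean value of the non-negative function `f` over `Q`, as an extended non-negative number -/
noncomputable def avg {d : ℕ} (f : (Fin d → ℝ) → ℝ) (Q : Set (Fin d → ℝ)) : ℝ≥0∞ :=
  (∫⁻ x in Q, ENNReal.ofReal (f x)) / volume Q

/-- the reverse Hölder constant `[w]_{RH_p}`, a supremum over all cubes -/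
noncomputable def RH {d : ℕ} (p : ℝ) (w : (Fin d → ℝ) → ℝ) : ℝ≥0∞ :=
  ⨆ (a : Fin d → ℝ) (s : ℝ) (_ : 0 < s),
    (avg (fun x => w x ^ p) (cube a s)) ^ (1 / p) / avg w (cube a s)

variable {d : ℕ}

theorem avg_congr {f g : (Fin d → ℝ) → ℝ} (h : f =ᵐ[volume] g) (Q : Set (Fin d → ℝ)) :
    avg f Q = avg g Q := by
  unfold avg
  congr 1
  refine lintegral_congr_ae ?_
  filter_upwards [ae_restrict_of_ae h] with x hx
  rw [hx]

theorem cube_lintegral (f : (Fin d → ℝ) → ℝ≥0∞) (a : Fin d → ℝ) (s : ℝ) :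
    ∫⁻ x in cube a s, f x = ∫⁻ x in HC a s, f x := by
  rw [Measure.restrict_congr_set (HC_ae a s)]
  rfl

theorem vol_cube (a : Fin d → ℝ) {s : ℝ} (hs : 0 < s) :
    volume (cube a s) = ENNReal.ofReal (s ^ d) := by
  rw [ENNReal.ofReal_pow hs.le, ← vol_HC a s]
  exact (measure_congr (HC_ae a s)).symm

theorem avg_eq {w : (Fin d → ℝ) → ℝ} (hw0 : ∀ x, 0 < w x) (hw : LocallyIntegrable w)
    (a : Fin d → ℝ) {s : ℝ} (hs : 0 < s) : avg w (cube a s) = ENNReal.ofReal (mn w a s) := by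
  unfold avg
  rw [cube_lintegral, vol_cube a hs, ← ofReal_integral_eq_lintegral_ofReal (integrableOn hw a s)
    (Eventually.of_forall fun x => (hw0 x).le), integral_eq_mn w a hs,
    ← ENNReal.ofReal_div_of_pos (by positivity)]
  congr 1
  field_simp

theorem RHK_of {p : ℝ} (hp : 1 < p) {w : (Fin d → ℝ) → ℝ} (hw0 : ∀ x, 0 < w x)
    (hw : LocallyIntegrable w) (h : RH p w ≠ ⊤) : RHK p ((RH p w).toReal ^ p) w := by
  intro a s hs
  have hm := mn_pos hw0 hw a hs
  have h1 : (avg (fun x => w x ^ p) (cube a s)) ^ (1 / p) / avg w (cube a s) ≤ RH p w :=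
    le_iSup_of_le a (le_iSup_of_le s (le_iSup_of_le hs le_rfl))
  rw [avg_eq hw0 hw a hs] at h1
  have h2 : (avg (fun x => w x ^ p) (cube a s)) ^ (1 / p) ≤ RH p w * ENNReal.ofReal (mn w a s) := by
    rwa [ENNReal.div_le_iff (by simpa using hm) ENNReal.ofReal_ne_top] at h1
  have h3 := ENNReal.rpow_le_rpow h2 (by linarith : (0 : ℝ) ≤ p)
  rw [← ENNReal.rpow_mul, one_div_mul_cancel (by linarith), ENNReal.rpow_one] at h3
  unfold avg at h3
  rw [cube_lintegral, vol_cube a hs, ENNReal.div_le_iff (by simpa using pow_pos hs d)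
    ENNReal.ofReal_ne_top] at h3
  refine h3.trans (le_of_eq ?_)
  conv_lhs => rw [← ENNReal.ofReal_toReal h]
  rw [← ENNReal.ofReal_mul ENNReal.toReal_nonneg,
    ENNReal.ofReal_rpow_of_nonneg (mul_nonneg ENNReal.toReal_nonneg hm.le) (by linarith),
    ← ENNReal.ofReal_mul (by positivity), Real.mul_rpow ENNReal.toReal_nonneg hm.le]
  congr 1
  ring

theorem one_le_RH {p : ℝ} (hp : 1 < p) {w : (Fin d → ℝ) → ℝ} (hwm : Measurable w)
    (hw0 : ∀ x, 0 < w x) (hw : LocallyIntegrable w) : 1 ≤ RH p w := by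
  have hm := mn_pos hw0 hw 0 one_pos
  have h1 : (avg (fun x => w x ^ p) (cube (0 : Fin d → ℝ) 1)) ^ (1 / p) /
      avg w (cube (0 : Fin d → ℝ) 1) ≤ RH p w :=
    le_iSup_of_le 0 (le_iSup_of_le 1 (le_iSup_of_le one_pos le_rfl))
  refine le_trans ?_ h1
  have h0 := avg_eq hw0 hw (0 : Fin d → ℝ) one_pos
  rw [ENNReal.le_div_iff_mul_le (Or.inl (by rw [h0]; simpa using hm))
    (Or.inl (by rw [h0]; exact ENNReal.ofReal_ne_top)), one_mul]
  unfold avg
  have hv : volume (cube (0 : Fin d → ℝ) 1) = 1 := by rw [vol_cube 0 one_pos]; simp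
  rw [hv, div_one, div_one]
  have hq : p.HolderConjugate (p / (p - 1)) := Real.HolderConjugate.conjExponent hp
  have h2 := ENNReal.lintegral_mul_le_Lp_mul_Lq (volume.restrict (cube (0 : Fin d → ℝ) 1)) hq
    (f := fun x => ENNReal.ofReal (w x)) (g := fun _ => 1) (by fun_prop) (by fun_prop)
  simp only [Pi.mul_apply, mul_one, ENNReal.one_rpow, lintegral_one, Measure.restrict_apply,
    MeasurableSet.univ, univ_inter, hv] at h2
  refine h2.trans (le_of_eq ?_)
  congr 1
  refine lintegral_congr fun x => ?_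
  rw [ENNReal.ofReal_rpow_of_pos (hw0 x)]

theorem main {p : ℝ} (hp : 1 < p) {w : (Fin d → ℝ) → ℝ} (hwm : Measurable w)
    (hw0 : ∀ x, 0 < w x) (hw : LocallyIntegrable w) (h : RH p w ≠ ⊤) (a : Fin d → ℝ) {s : ℝ}
    (hs : 0 < s) {e : ℝ} (he : 0 < e)
    (he2 : e ≤ 1 / (1 + 2 * (Cp p * 2 ^ p * (2 * (2 ^ d : ℝ) ^ p))) * (RH p w).toReal ^ (-p)) :
    avg (fun x => w x ^ (p + e)) (cube a s) ≤
      2 * RH p w ^ (p + e) * avg w (cube a s) ^ (p + e) := by
  set R := (RH p w).toReal with hR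
  have hR1 : 1 ≤ R := by
    have := ENNReal.toReal_mono h (one_le_RH hp hwm hw0 hw)
    simpa using this
  have hC := Cp_pos hp
  set X := Cp p * 2 ^ p * (2 * (2 ^ d : ℝ) ^ p) with hX
  have hX0 : 0 < X := by positivity
  have hRp : 1 ≤ R ^ p := Real.one_le_rpow hR1 (by linarith)
  have hRH := RHK_of hp hw0 hw h
  rw [Real.rpow_neg (by linarith)] at he2
  have he3 : e * R ^ p ≤ 1 / (1 + 2 * X) := by
    have := mul_le_mul_of_nonneg_right he2 (by positivity : 0 ≤ R ^ p)
    rwa [mul_assoc, inv_mul_cancel₀ (by positivity), mul_one] at this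
  have he4 : 1 / (1 + 2 * X) ≤ 1 := by
    rw [div_le_one (by positivity)]; linarith
  have he1 : e ≤ 1 := by nlinarith
  have heK : e * (Cp p * 2 ^ p) * (2 * (2 ^ d : ℝ) ^ p * R ^ p) ≤ 1 / 2 := by
    have h1 : e * (Cp p * 2 ^ p) * (2 * (2 ^ d : ℝ) ^ p * R ^ p) = X * (e * R ^ p) := by
      rw [hX]; ring
    rw [h1]
    refine (mul_le_mul_of_nonneg_left he3 hX0.le).trans ?_
    rw [mul_one_div, div_le_div_iff₀ (by positivity) (by norm_num)]
    linarith
  set L := mn w a s with hL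
  have hL0 : 0 < L := mn_pos hw0 hw a hs
  have htr := fun n => trunc hp (by positivity) hwm hw0 hw hRH a hs he he1 heK n
  -- monotone convergence
  have hlim : Tendsto (fun n => ∫⁻ x in HC a s,
      ENNReal.ofReal (w x ^ p * min (w x) (lev L n) ^ e)) atTop
      (𝓝 (∫⁻ x in HC a s, ENNReal.ofReal (w x ^ (p + e)))) := by
    refine lintegral_tendsto_of_tendsto_of_monotone (fun n => by fun_prop) ?_ ?_
    · refine Eventually.of_forall fun x => ?_
      intro n n' hnn
      refine ENNReal.ofReal_le_ofReal ?_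
      have hwx := hw0 x
      have h1 : lev L n ≤ lev L n' := by
        unfold lev
        have : (2 : ℝ) ^ n ≤ 2 ^ n' := pow_le_pow_right₀ (by norm_num) hnn
        nlinarith
      have h2 := lev_pos hL0 n
      gcongr
    · refine Eventually.of_forall fun x => ?_
      have hwx := hw0 x
      refine tendsto_const_nhds.congr' ?_
      obtain ⟨N, hN⟩ := pow_unbounded_of_one_lt (w x / L) (by norm_num : (1 : ℝ) < 2)
      filter_upwards [eventually_ge_atTop N] with n hn
      have h1 : w x ≤ lev L n := by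
        unfold lev
        rw [div_lt_iff₀ hL0] at hN
        have : (2 : ℝ) ^ N ≤ 2 ^ n := pow_le_pow_right₀ (by norm_num) hn
        nlinarith
      rw [min_eq_left h1, Real.rpow_add hwx]
  have h1 := le_of_tendsto' hlim htr
  have h2 : ∫⁻ x in HC a s, ENNReal.ofReal (w x ^ (p + e)) ≤
      2 * (ENNReal.ofReal (L ^ e) * ENNReal.ofReal (R ^ p * s ^ d * L ^ p)) :=
    h1.trans (by gcongr; exact hRH a s hs)
  have hRpe : R ^ p ≤ R ^ (p + e) := Real.rpow_le_rpow_of_exponent_le hR1 (by linarith)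
  unfold avg
  rw [cube_lintegral, cube_lintegral, vol_cube a hs,
    ENNReal.div_le_iff (by simpa using pow_pos hs d) ENNReal.ofReal_ne_top]
  refine h2.trans ?_
  have h3 : (∫⁻ x in HC a s, ENNReal.ofReal (w x)) / ENNReal.ofReal (s ^ d) =
      ENNReal.ofReal L := by
    have := avg_eq hw0 hw a hs
    unfold avg at this
    rwa [cube_lintegral, vol_cube a hs] at this
  have h4 : RH p w ^ (p + e) = ENNReal.ofReal (R ^ (p + e)) := by
    conv_lhs => rw [← ENNReal.ofReal_toReal h]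
    rw [← hR, ENNReal.ofReal_rpow_of_nonneg (by linarith) (by linarith)]
  rw [h3, h4, ENNReal.ofReal_rpow_of_nonneg hL0.le (by linarith)]
  have h5 : 2 * ENNReal.ofReal (R ^ (p + e)) * ENNReal.ofReal (L ^ (p + e)) *
      ENNReal.ofReal (s ^ d) = 2 * ENNReal.ofReal (R ^ (p + e) * (L ^ (p + e) * s ^ d)) := by
    rw [ENNReal.ofReal_mul (by positivity), ENNReal.ofReal_mul (by positivity)]
    ring
  rw [h5, ← ENNReal.ofReal_mul (by positivity)]
  gcongr 2 * ?_
  refine ENNReal.ofReal_le_ofReal ?_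
  rw [Real.rpow_add hL0]
  calc L ^ e * (R ^ p * s ^ d * L ^ p) = R ^ p * (L ^ p * L ^ e * s ^ d) := by ring
    _ ≤ R ^ (p + e) * (L ^ p * L ^ e * s ^ d) := by gcongr

/-- For every dimension `d ≥ 1` and every `p > 1` there is `c > 0` such that for every weight `w`
on `ℝ^d` with `[w]_{RH_p} < ∞`, every cube `Q` and every `0 < ε ≤ c [w]_{RH_p}^(-p)`
`⟨w^(p+ε)⟩_Q ≤ 2 [w]_{RH_p}^(p+ε) ⟨w⟩_Q^(p+ε)`. -/
theorem result (d : ℕ) (_hd : 1 ≤ d) (p : ℝ) (hp : 1 < p) : ∃ c : ℝ, 0 < c ∧
    ∀ w : (Fin d → ℝ) → ℝ, (∀ x, 0 < w x) → LocallyIntegrable w → RH p w ≠ ⊤ →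
    ∀ (a : Fin d → ℝ) (s : ℝ), 0 < s → ∀ ε : ℝ, 0 < ε → ε ≤ c * (RH p w).toReal ^ (-p) →
      avg (fun x => w x ^ (p + ε)) (cube a s) ≤
        2 * RH p w ^ (p + ε) * avg w (cube a s) ^ (p + ε) := by
  have hC := Cp_pos hp
  refine ⟨1 / (1 + 2 * (Cp p * 2 ^ p * (2 * (2 ^ d : ℝ) ^ p))), by positivity, ?_⟩
  intro w hw0 hw hRH a s hs e he he2
  -- a measurable positive representative
  set v := hw.aestronglyMeasurable.mk w with hv
  have hvm : Measurable v := hw.aestronglyMeasurable.stronglyMeasurable_mk.measurable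
  classical
  set u : (Fin d → ℝ) → ℝ := fun x => if 0 < v x then v x else 1 with hu
  have hum : Measurable u := Measurable.ite (measurableSet_lt measurable_const hvm) hvm
    measurable_const
  have hu0 : ∀ x, 0 < u x := by
    intro x
    simp only [hu]
    split_ifs with h
    · exact h
    · norm_num
  have hwu : w =ᵐ[volume] u := by
    filter_upwards [hw.aestronglyMeasurable.ae_eq_mk] with x hx
    have : v x = w x := hx.symm
    simp only [hu, this, hw0 x, if_true]
  have hul : LocallyIntegrable u := hw.congr hwu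
  have hav : ∀ Q, avg w Q = avg u Q := avg_congr hwu
  have havq : ∀ (q : ℝ) Q, avg (fun x => w x ^ q) Q = avg (fun x => u x ^ q) Q := by
    intro q Q
    refine avg_congr ?_ Q
    filter_upwards [hwu] with x hx
    rw [hx]
  have hRR : RH p w = RH p u := by
    unfold RH
    simp_rw [hav, havq]
  rw [hRR] at hRH he2 ⊢
  rw [hav, havq]
  exact main hp hum hu0 hul hRH a hs he he2

end Pool.Agent.Results.MP_edcda5_an.ExplicitGehringExponent
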